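import Pool.Agent.Helper8.DP2.Defs

/-!
# DQ-C5u: finite check at the primes 43 and 67
-/

set_option autoImplicit false

namespace Pool.Agent.Helper8.DP2

namespace C5u

/-- computable reduced entries -/
def redB {p : ℕ} (m n : ℤ) (x y z : ZMod p) (i : Fin 7) : ZMod p :=
  if lin m n x y z i = 0 then - com m n x y z i else lin m n x y z i

theorem red_eq {p : ℕ} (m n : ℤ) (x y z : ZMod p) (i : Fin 7) :
    red m n x y z i = redB m n x y z i := by
  unfold red redB
  by_cases h : lin m n x y z i = 0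
  · rw [if_neg (not_not.2 h), if_pos h]
  · rw [if_pos h, if_neg h]

/-- the code of a vector of Booleans -/
def code (f : Fin 7 → Bool) : ℕ :=
  (f 0 ^^ f 5).toNat + 2 * (f 1 ^^ f 5).toNat + 4 * (f 2 ^^ f 5).toNat +
    8 * (f 3 ^^ f 5).toNat + 16 * (f 4 ^^ f 5).toNat

theorem zb (b b' c c' : Bool) (h : ((if b = true then 0 else 1 : ZMod 2) +
    (if b' = true then 0 else 1)) = (if c = true then 0 else 1) + (if c' = true then 0 else 1)) :
    (b ^^ c) = (b' ^^ c') := by
  revert b b' c c'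
  decide

/-- squares modulo 43 -/
def sq43 (a : ZMod 43) : Bool := Nat.testBit 3678700564051 a.val

/-- squares modulo 67 -/
def sq67 (a : ZMod 67) : Bool := Nat.testBit 61808106872519771731 a.val

theorem sq43_iff : ∀ a : ZMod 43, IsSquare a ↔ sq43 a = true := by decide +kernel

theorem sq67_iff : ∀ a : ZMod 67, IsSquare a ↔ sq67 a = true := by decide +kernel

theorem chk43 : (∀ y z : ZMod 43, F 2 1 1 y z = 0 →
      Nat.testBit 1639627880 (code fun i => sq43 (redB 2 1 1 y z i)) = true) ∧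
    (∀ z : ZMod 43, F 2 1 0 1 z = 0 →
      Nat.testBit 1639627880 (code fun i => sq43 (redB 2 1 0 1 z i)) = true) ∧
    (F 2 1 0 0 (1 : ZMod 43) = 0 →
      Nat.testBit 1639627880 (code fun i => sq43 (redB 2 1 0 0 1 i)) = true) := by
  decide +kernel

theorem chk67 : (∀ y z : ZMod 67, F 2 1 1 y z = 0 →
      Nat.testBit 2655339415 (code fun i => sq67 (redB 2 1 1 y z i)) = true) ∧
    (∀ z : ZMod 67, F 2 1 0 1 z = 0 →
      Nat.testBit 2655339415 (code fun i => sq67 (redB 2 1 0 1 z i)) = true) ∧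
    (F 2 1 0 0 (1 : ZMod 67) = 0 →
      Nat.testBit 2655339415 (code fun i => sq67 (redB 2 1 0 0 1 i)) = true) := by
  decide +kernel

end C5u

open C5u

/-- case `(m,n,d) = (2,1,43*67)` -/
theorem c5_upper (x y z : ZMod 43) (h : Nrm x y z) (hF : F 2 1 x y z = 0)
    (x' y' z' : ZMod 67) (h' : Nrm x' y' z') (hF' : F 2 1 x' y' z' = 0) :
    ∃ j : Fin 5, cls 2 1 x y z j.castSucc.castSucc + cls 2 1 x' y' z' j.castSucc.castSucc ≠
      cls 2 1 x y z 5 + cls 2 1 x' y' z' 5 := by
  by_contra hcon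
  push Not at hcon
  set f : Fin 7 → Bool := fun i => sq43 (redB 2 1 x y z i) with hf
  set f' : Fin 7 → Bool := fun i => sq67 (redB 2 1 x' y' z' i) with hf'
  have e : ∀ i, cls 2 1 x y z i = if f i = true then 0 else 1 := by
    intro i
    unfold cls
    rw [red_eq]
    by_cases hs : IsSquare (redB 2 1 x y z i)
    · rw [if_pos hs, if_pos ((sq43_iff _).1 hs)]
    · rw [if_neg hs, if_neg (fun h => hs ((sq43_iff _).2 h))]
  have e' : ∀ i, cls 2 1 x' y' z' i = if f' i = true then 0 else 1 := by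
    intro i
    unfold cls
    rw [red_eq]
    by_cases hs : IsSquare (redB 2 1 x' y' z' i)
    · rw [if_pos hs, if_pos ((sq67_iff _).1 hs)]
    · rw [if_neg hs, if_neg (fun h => hs ((sq67_iff _).2 h))]
  have hx : ∀ j : Fin 5, (f j.castSucc.castSucc ^^ f 5) = (f' j.castSucc.castSucc ^^ f' 5) := by
    intro j
    have hj := hcon j
    rw [e, e, e', e'] at hj
    exact zb _ _ _ _ hj
  have hc : code f = code f' := by
    have h0 := hx 0
    have h1 := hx 1
    have h2 := hx 2
    have h3 := hx 3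
    have h4 := hx 4
    change (f 0 ^^ f 5) = (f' 0 ^^ f' 5) at h0
    change (f 1 ^^ f 5) = (f' 1 ^^ f' 5) at h1
    change (f 2 ^^ f 5) = (f' 2 ^^ f' 5) at h2
    change (f 3 ^^ f 5) = (f' 3 ^^ f' 5) at h3
    change (f 4 ^^ f 5) = (f' 4 ^^ f' 5) at h4
    unfold code
    rw [h0, h1, h2, h3, h4]
  have t1 : Nat.testBit 1639627880 (code f) = true := by
    rcases h with rfl | ⟨rfl, rfl⟩ | ⟨rfl, rfl, rfl⟩
    · exact chk43.1 y z hF
    · exact chk43.2.1 z hF
    · exact chk43.2.2 hF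
  have t2 : Nat.testBit 2655339415 (code f') = true := by
    rcases h' with rfl | ⟨rfl, rfl⟩ | ⟨rfl, rfl, rfl⟩
    · exact chk67.1 y' z' hF'
    · exact chk67.2.1 z' hF'
    · exact chk67.2.2 hF'
  rw [← hc] at t2
  have t3 : Nat.testBit (1639627880 &&& 2655339415) (code f) = true := by
    rw [Nat.testBit_and, t1, t2]
    rfl
  have t4 : (1639627880 &&& 2655339415 : ℕ) = 0 := by decide
  rw [t4, Nat.zero_testBit] at t3
  exact absurd t3 (by decide)

end Pool.Agent.Helper8.DP2
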